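import Pool.Agent.H84.ND.Targets3

/-!
# MP_70ba79_ag, board `ndc_modules`, row FWN: few nodes
-/

set_option autoImplicit false

namespace Pool.Agent.H60.ND

open MvPolynomial SC Pool.Agent.H27.LV Pool.Agent.H84.SM Pool.Agent.H84.ND

theorem pf_FWN (hLUB : Pool.Agent.H84.ND.T_LUB) (hNE : Pool.Agent.H84.ND.T_NE)
    (hLBA : Pool.Agent.H84.ND.T_LBA) : Pool.Agent.H84.ND.T_FWN := by
  intro k _ _ _ G d hd hG hsq hnode hStr T hT hTc
  by_contra hcon
  have hcard : 3 * d - 5 ≤ T.card := by omega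
  obtain ⟨i, t1, h1⟩ := hNE d hd
  obtain ⟨t0, h0⟩ := hLBA k G d (by omega) hG hsq hnode T hT hTc i
  obtain ⟨V, hV, hVf, hVr⟩ := h0 (max t0 t1) (le_max_left _ _)
  have h2 := h1 (max t0 t1) (le_max_right _ _)
  obtain ⟨hf, hr⟩ := hLUB k G d (by omega) hG hsq hStr i (max t0 t1)
  have h3 : Module.finrank k V ≤ Module.finrank k (SJ G d i (max t0 t1)) :=
    Submodule.finrank_mono hV
  have h4 : (3 * d - 5) * (i + 2).choose 3 ≤ T.card * (i + 2).choose 3 :=
    Nat.mul_le_mul_right _ hcard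
  omega

end Pool.Agent.H60.ND
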