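import Pool.Agent.H84.ND.Targets2

/-!
# MP_70ba79_ag, board `ndc_modules`, row GSM: a general member of a pencil is smooth
-/

set_option autoImplicit false

open scoped Classical

namespace Pool.Agent.H60.ND

open MvPolynomial SC Pool.Agent.H27.LV Pool.Agent.H84.SM Pool.Agent.H84.ND

section

variable {k K : Type} [Field k] [Field K] [Algebra k K]

/-- monomials of degree `D` in three variables -/
abbrev Mon (D : ℕ) : Type := {μ : Fin 3 →₀ ℕ // μ ∈ Finset.univ.finsuppAntidiag D}

theorem Mon.sum {D : ℕ} (μ : Mon D) : ∑ i, μ.1 i = D :=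
  (Finset.mem_finsuppAntidiag.1 μ.2).1

theorem hom_expand {D : ℕ} {p : MvPolynomial (Fin 3) k} (hp : p.IsHomogeneous D) :
    p = ∑ ν : Mon D, monomial ν.1 (coeff ν.1 p) := by
  have h1 : ∑ ν : Mon D, monomial ν.1 (coeff ν.1 p) =
      ∑ ν ∈ Finset.univ.finsuppAntidiag D, monomial ν (coeff ν p) :=
    Finset.sum_coe_sort (Finset.univ.finsuppAntidiag D) (fun ν => monomial ν (coeff ν p))
  rw [h1]
  ext ν
  rw [coeff_sum]
  simp only [coeff_monomial]
  rw [Finset.sum_ite_eq']
  by_cases hν : ν ∈ Finset.univ.finsuppAntidiag D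
  · rw [if_pos hν]
  · rw [if_neg hν]
    by_contra h
    apply hν
    rw [Finset.mem_finsuppAntidiag]
    refine ⟨?_, Finset.subset_univ _⟩
    have h2 := hp h
    rw [Finsupp.weight_apply, Finsupp.sum_fintype] at h2
    · simpa using h2
    · intro i; simp

/-- no common zero of the perturbed forms -/
theorem gsm_key [CharZero k] (t : K) (ht : Transcendental k t)
    (g : Fin 3 → MvPolynomial (Fin 3) k) (e : ℕ) (hg : ∀ i, (g i).IsHomogeneous e)
    (a : Fin 3 → K)
    (h : ∀ i, aeval a (g i) + t * (((e + 1 : ℕ) : K) * a i ^ e) = 0) : a = 0 := by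
  haveI : CharZero K := charZero_of_injective_algebraMap (algebraMap k K).injective
  set D : ℕ := 3 * e + 1 with hD
  have hex : ∀ μ : Mon D, ∃ i, e ≤ μ.1 i := by
    intro μ
    by_contra hcon
    push Not at hcon
    have h1 := μ.sum
    rw [Fin.sum_univ_three] at h1
    have h2 := hcon 0
    have h3 := hcon 1
    have h4 := hcon 2
    omega
  choose ix hix using hex
  let rest : Mon D → (Fin 3 →₀ ℕ) := fun μ => μ.1 - Finsupp.single (ix μ) e
  have hrest : ∀ μ, rest μ + Finsupp.single (ix μ) e = μ.1 := by
    intro μ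
    apply tsub_add_cancel_of_le
    rw [Finsupp.single_le_iff]
    exact hix μ
  let p : Mon D → MvPolynomial (Fin 3) k := fun μ => monomial (rest μ) 1 * g (ix μ)
  have hp : ∀ μ, (p μ).IsHomogeneous D := by
    intro μ
    have h1 : (rest μ).degree + e = D := by
      have h2 := congrArg Finsupp.degree (hrest μ)
      rw [map_add, Finsupp.degree_single] at h2
      rw [h2, Finsupp.degree_eq_sum]
      exact μ.sum
    have h3 := (isHomogeneous_monomial (R := k) (1 : k) (rfl : (rest μ).degree = _)).mul
      (hg (ix μ))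
    rw [h1] at h3
    exact h3
  let v : Mon D → K := fun μ => aeval a (monomial μ.1 (1 : k))
  have hv : ∀ μ, aeval a (p μ) + t * (((e + 1 : ℕ) : K) * v μ) = 0 := by
    intro μ
    have h1 : monomial μ.1 (1 : k) = monomial (rest μ) 1 * (X (ix μ)) ^ e := by
      rw [X_pow_eq_monomial, monomial_mul, hrest, one_mul]
    have h2 : v μ = aeval a (monomial (rest μ) (1 : k)) * a (ix μ) ^ e := by
      simp only [v]
      rw [h1, map_mul, map_pow, aeval_X]
    have h3 : aeval a (p μ) = aeval a (monomial (rest μ) (1 : k)) * aeval a (g (ix μ)) := by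
      simp only [p]
      rw [map_mul]
    rw [h2, h3]
    linear_combination (aeval a (monomial (rest μ) (1 : k))) * h (ix μ)
  let M : Matrix (Mon D) (Mon D) k := fun μ ν => - (coeff ν.1 (p μ)) / ((e + 1 : ℕ) : k)
  have hexp : ∀ μ, aeval a (p μ) = ∑ ν, algebraMap k K (coeff ν.1 (p μ)) * v ν := by
    intro μ
    conv_lhs => rw [hom_expand (hp μ)]
    rw [map_sum]
    refine Finset.sum_congr rfl fun ν _ => ?_
    simp only [v]
    rw [aeval_monomial, aeval_monomial, map_one, one_mul]
  have hne : ((e + 1 : ℕ) : K) ≠ 0 := Nat.cast_ne_zero.2 (Nat.succ_ne_zero e)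
  have hker : Matrix.mulVec (Matrix.scalar (Mon D) t - M.map (algebraMap k K)) v = 0 := by
    funext μ
    rw [Matrix.sub_mulVec]
    have h1 : Matrix.mulVec (Matrix.scalar (Mon D) t) v μ = t * v μ := by
      rw [Matrix.scalar_apply, Matrix.mulVec_diagonal]
    have h2 : Matrix.mulVec (M.map (algebraMap k K)) v μ =
        - (aeval a (p μ)) / ((e + 1 : ℕ) : K) := by
      rw [hexp μ, Matrix.mulVec, dotProduct, ← Finset.sum_neg_distrib, Finset.sum_div]
      refine Finset.sum_congr rfl fun ν _ => ?_
      simp only [M, Matrix.map_apply]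
      rw [map_div₀, map_neg, map_natCast]
      ring
    rw [Pi.sub_apply, h1, h2, Pi.zero_apply]
    field_simp
    linear_combination hv μ
  have hdet : (Matrix.scalar (Mon D) t - M.map (algebraMap k K)).det ≠ 0 := by
    rw [← Matrix.eval_charpoly, Matrix.charpoly_map]
    rw [Polynomial.eval_map_algebraMap]
    intro h0
    have h1 := (transcendental_iff.1 ht) _ h0
    exact (Matrix.charpoly_monic M).ne_zero h1
  have hv0 : v = 0 := Matrix.eq_zero_of_mulVec_eq_zero hdet hker
  funext i
  have hmem : Finsupp.single i D ∈ (Finset.univ : Finset (Fin 3)).finsuppAntidiag D := by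
    rw [Finset.mem_finsuppAntidiag]
    refine ⟨?_, Finset.subset_univ _⟩
    simp [Finsupp.single_apply]
  have h1 := congrFun hv0 ⟨Finsupp.single i D, hmem⟩
  have h2 : v ⟨Finsupp.single i D, hmem⟩ = a i ^ D := by
    simp only [v]
    rw [← X_pow_eq_monomial, map_pow, aeval_X]
  rw [h2] at h1
  exact pow_eq_zero_iff (by omega) |>.1 h1

end

theorem pf_GSM : Pool.Agent.H84.ND.T_GSM := by
  intro k _ _ _ G d hd hG
  obtain ⟨e, rfl⟩ : ∃ e, d = e + 1 := ⟨d - 1, by omega⟩
  let K := AlgebraicClosure (RatFunc k)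
  let t : K := algebraMap (RatFunc k) K RatFunc.X
  have ht : Transcendental k t := by
    rw [transcendental_algebraMap_iff (algebraMap (RatFunc k) K).injective]
    exact RatFunc.transcendental_X
  haveI : CharZero K := charZero_of_injective_algebraMap (algebraMap k K).injective
  let H : MvPolynomial (Fin 3) k := ∑ i, X i ^ (e + 1)
  have hH : H.IsHomogeneous (e + 1) := by
    refine IsHomogeneous.sum _ _ _ fun i _ => ?_
    have := (isHomogeneous_X k i).pow (e + 1)
    rwa [one_mul] at this
  have hpd : ∀ i, pderiv i H = ((e + 1 : ℕ) : MvPolynomial (Fin 3) k) * X i ^ e := by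
    intro i
    simp only [H]
    rw [map_sum]
    rw [Finset.sum_eq_single i]
    · rw [Derivation.leibniz_pow, pderiv_X_self]
      simp
    · intro j _ hj
      rw [Derivation.leibniz_pow, pderiv_X_of_ne hj]
      simp
    · intro h; exact absurd (Finset.mem_univ i) h
  refine ⟨K, inferInstance, inferInstance, inferInstance, inferInstance, t, H, ht, hH, ?_, ?_⟩
  · refine (hG.map _).add ?_
    have := (isHomogeneous_C (Fin 3) t).mul (hH.map (algebraMap k K))
    rwa [zero_add] at this
  · intro a ha
    refine gsm_key t ht (fun i => pderiv i G) e (fun i => ?_) a (fun i => ?_)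
    · have := hG.pderiv (i := i)
      rwa [Nat.add_sub_cancel] at this
    · have h1 := ha i
      rw [map_add, Derivation.leibniz, pderiv_C, smul_zero, add_zero, pderiv_map, pderiv_map,
        hpd, map_add, smul_eq_mul, map_mul, eval_C, eval_map, eval_map] at h1
      rw [← aeval_def, ← aeval_def, map_mul, map_pow, aeval_X, map_natCast] at h1
      exact h1

end Pool.Agent.H60.ND
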