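import Pool.Agent.H84.ND.Targets2

/-!
# MP_70ba79_ag, board `ndc_modules`, row MRK: rank and specialisation
-/

set_option autoImplicit false

namespace Pool.Agent.H60.ND

open MvPolynomial SC Pool.Agent.H27.LV Pool.Agent.H84.SM Pool.Agent.H84.ND

/-- a matrix of rank `r` has an identity matrix of size `r` as a product -/
theorem exists_one_of_rank {k : Type} [Field k] {m n : ℕ} (A : Matrix (Fin m) (Fin n) k) :
    ∃ (P : Matrix (Fin A.rank) (Fin m) k) (Q : Matrix (Fin n) (Fin A.rank) k),
      P * A * Q = 1 := by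
  have hr : Module.finrank k (LinearMap.range A.mulVecLin) = A.rank := rfl
  let b := Module.finBasisOfFinrankEq k (LinearMap.range A.mulVecLin) hr
  let f : (Fin A.rank → k) →ₗ[k] (Fin m → k) :=
    (LinearMap.range A.mulVecLin).subtype ∘ₗ b.equivFun.symm.toLinearMap
  have hf : LinearMap.ker f = ⊥ := by
    rw [LinearMap.ker_eq_bot]
    exact (Submodule.injective_subtype _).comp b.equivFun.symm.injective
  obtain ⟨g, hg⟩ := f.exists_leftInverse_of_injective hf
  obtain ⟨s', hs'⟩ := A.mulVecLin.rangeRestrict.exists_rightInverse_of_surjective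
    (LinearMap.range_rangeRestrict _)
  let s : (Fin A.rank → k) →ₗ[k] (Fin n → k) := s' ∘ₗ b.equivFun.symm.toLinearMap
  have hs : A.mulVecLin ∘ₗ s = f := by
    apply LinearMap.ext
    intro x
    have h1 := LinearMap.congr_fun hs' (b.equivFun.symm x)
    have h2 := congrArg Subtype.val h1
    simpa [s, f] using h2
  refine ⟨LinearMap.toMatrix' g, LinearMap.toMatrix' s, ?_⟩
  have h3 : LinearMap.toMatrix' A.mulVecLin = A := by
    rw [← Matrix.toLin'_apply', LinearMap.toMatrix'_toLin']
  have h4 : LinearMap.toMatrix' g * LinearMap.toMatrix' A.mulVecLin * LinearMap.toMatrix' s =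
      LinearMap.toMatrix' (g ∘ₗ (A.mulVecLin ∘ₗ s)) := by
    rw [LinearMap.toMatrix'_comp, LinearMap.toMatrix'_comp, Matrix.mul_assoc]
  rw [h3] at h4
  rw [h4, hs, hg, LinearMap.toMatrix'_id]

theorem pf_MRK : Pool.Agent.H84.ND.T_MRK := by
  intro k K _ _ _ t ht m n A
  have key := exists_one_of_rank (A.map (Polynomial.eval 0))
  generalize (A.map (Polynomial.eval 0)).rank = r at key ⊢
  obtain ⟨P, Q, hPQ⟩ := key
  let B : Matrix (Fin r) (Fin r) (Polynomial k) := P.map Polynomial.C * A * Q.map Polynomial.C
  have hB0 : B.map (Polynomial.evalRingHom (0 : k)) = 1 := by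
    have h1 : B.map (Polynomial.evalRingHom (0 : k)) =
        (P.map Polynomial.C).map (Polynomial.evalRingHom (0 : k)) *
        A.map (Polynomial.evalRingHom (0 : k)) *
        (Q.map Polynomial.C).map (Polynomial.evalRingHom (0 : k)) := by
      simp only [B]
      rw [Matrix.map_mul, Matrix.map_mul]
    have h2 : ∀ {a b : ℕ} (M : Matrix (Fin a) (Fin b) k),
        (M.map Polynomial.C).map (Polynomial.evalRingHom (0 : k)) = M := by
      intro a b M
      ext i j
      simp
    rw [h1, h2, h2]
    exact hPQ
  have hdet : B.det ≠ 0 := by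
    intro h
    have h1 := RingHom.map_det (Polynomial.evalRingHom (0 : k)) B
    rw [h, map_zero] at h1
    have h2 : (Polynomial.evalRingHom (0 : k)).mapMatrix B = 1 := hB0
    rw [h2, Matrix.det_one] at h1
    exact zero_ne_one h1
  have hdetK : Polynomial.aeval t B.det ≠ 0 := by
    intro h
    exact hdet ((transcendental_iff.1 ht) _ h)
  have h5 : (P.map (algebraMap k K) * A.map (Polynomial.aeval t) * Q.map (algebraMap k K)) =
      B.map (Polynomial.aeval t : Polynomial k →ₐ[k] K).toRingHom := by
    simp only [B]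
    rw [Matrix.map_mul, Matrix.map_mul]
    have h2 : ∀ {a b : ℕ} (M : Matrix (Fin a) (Fin b) k),
        (M.map Polynomial.C).map (Polynomial.aeval t : Polynomial k →ₐ[k] K).toRingHom =
          M.map (algebraMap k K) := by
      intro a b M
      ext i j
      simp
    rw [h2, h2]
    rfl
  have h6 : (P.map (algebraMap k K) * A.map (Polynomial.aeval t) * Q.map (algebraMap k K)).det
      ≠ 0 := by
    rw [h5]
    have h7 := RingHom.map_det (Polynomial.aeval t : Polynomial k →ₐ[k] K).toRingHom B
    intro h8
    apply hdetK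
    have h9 : (Polynomial.aeval t : Polynomial k →ₐ[k] K).toRingHom B.det = 0 := by
      rw [h7]; exact h8
    exact h9
  have h7 : (P.map (algebraMap k K) * A.map (Polynomial.aeval t) *
      Q.map (algebraMap k K)).rank = r := by
    have := Matrix.rank_of_isUnit _ ((Matrix.isUnit_iff_isUnit_det _).2 (isUnit_iff_ne_zero.2 h6))
    rw [this, Fintype.card_fin]
  calc r = (P.map (algebraMap k K) * A.map (Polynomial.aeval t) *
      Q.map (algebraMap k K)).rank := h7.symm
    _ ≤ (P.map (algebraMap k K) * A.map (Polynomial.aeval t)).rank := Matrix.rank_mul_le_left _ _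
    _ ≤ (A.map (Polynomial.aeval t)).rank := Matrix.rank_mul_le_right _ _

end Pool.Agent.H60.ND
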