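import Pool.Agent.H84.ND.Targets2
import Pool.Agent.H12.SM.NUA

/-!
# MP_70ba79_ag, board `ndc_modules`, row NA: lower bound for the number `ub`
-/

set_option autoImplicit false

namespace Pool.Agent.H60.ND

open MvPolynomial SC Pool.Agent.H27.LV Pool.Agent.H84.SM Pool.Agent.H84.ND Pool.Agent.H12.SM

theorem pf_NA : Pool.Agent.H84.ND.T_NA := by
  intro d e1 hd
  refine ⟨8640 * (d : ℝ) ^ 5, ?_⟩
  intro m hm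
  have hdR : (4 : ℝ) ≤ d := by exact_mod_cast hd
  have hmR : (1 : ℝ) ≤ m := by exact_mod_cast hm
  set M : ℕ := 12 * d * m with hM
  have hMR : (M : ℝ) = 12 * d * m := by rw [hM]; push_cast; ring
  have hM1 : (1 : ℝ) ≤ M := by
    rw [hMR]
    nlinarith
  have hn3 : 36 * d * m / 3 = M := by
    have : 36 * d * m = 3 * M := by rw [hM]; ring
    rw [this]
    exact Nat.mul_div_cancel_left M (by norm_num)
  unfold ub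
  rw [hn3]
  have hlow : ∑ j ∈ Finset.range (M + 1), ((d : ℝ) ^ 2 * (j : ℝ) ^ 2 * (3 * ((M : ℝ) - j)) / 2 +
      (((d : ℝ) - 1) * d * j - (d : ℝ) ^ 2) * (3 * ((M : ℝ) - j)) ^ 2 / 2) ≤
      ((∑ j ∈ Finset.range (M + 1), bdim d (((36 * d * m + d * e1 : ℕ) : ℤ) -
        ((36 * d * m : ℕ) : ℤ) + d * (j : ℤ)) (36 * d * m - 3 * j) : ℕ) : ℝ) := by
    rw [Nat.cast_sum]
    apply Finset.sum_le_sum
    intro j hj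
    have hjM : j ≤ M := by
      have := Finset.mem_range.mp hj
      omega
    have e1' : ((36 * d * m + d * e1 : ℕ) : ℤ) - ((36 * d * m : ℕ) : ℤ) + d * (j : ℤ) =
        ((d * e1 + d * j : ℕ) : ℤ) := by
      push_cast; ring
    have e2' : 36 * d * m - 3 * j = 3 * (M - j) := by
      have : 36 * d * m = 3 * M := by rw [hM]; ring
      omega
    rw [e1', e2']
    have := bdim_ge d j e1 (3 * (M - j)) hd
    rw [Nat.cast_mul, Nat.cast_sub hjM] at this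
    push_cast at this
    exact this
  refine le_trans ?_ hlow
  have hsum : ∑ j ∈ Finset.range (M + 1), ((d : ℝ) ^ 2 * (j : ℝ) ^ 2 * (3 * ((M : ℝ) - j)) / 2 +
      (((d : ℝ) - 1) * d * j - (d : ℝ) ^ 2) * (3 * ((M : ℝ) - j)) ^ 2 / 2) =
      (6 * (d : ℝ) ^ 2 - 9 * d / 2) * ((M : ℝ) ^ 2 * ((M : ℝ) ^ 2 - 1) / 12) -
        9 * (d : ℝ) ^ 2 / 2 * ((M : ℝ) * (M + 1) * (2 * M + 1) / 6) := by
    have hc : ∀ j : ℕ, ((d : ℝ) ^ 2 * (j : ℝ) ^ 2 * (3 * ((M : ℝ) - j)) / 2 +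
      (((d : ℝ) - 1) * d * j - (d : ℝ) ^ 2) * (3 * ((M : ℝ) - j)) ^ 2 / 2) =
      (-(9 * (d : ℝ) ^ 2 * (M : ℝ) ^ 2 / 2)) +
      (9 * ((d : ℝ) - 1) * d * (M : ℝ) ^ 2 / 2 + 9 * (d : ℝ) ^ 2 * M) * (j : ℝ) +
      (3 * (d : ℝ) ^ 2 * M / 2 - 9 * ((d : ℝ) - 1) * d * M - 9 * (d : ℝ) ^ 2 / 2) * (j : ℝ) ^ 2 +
      (-(3 * (d : ℝ) ^ 2 / 2) + 9 * ((d : ℝ) - 1) * d / 2) * (j : ℝ) ^ 3 := by
      intro j; ring
    rw [Finset.sum_congr rfl (fun j _ => hc j), sum_cubic]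
    ring
  rw [hsum]
  have hMM : (36 * (d : ℝ) * m) ^ 4 = 81 * (M : ℝ) ^ 4 := by rw [hMR]; ring
  have hCM : 8640 * (d : ℝ) ^ 5 * (m : ℝ) ^ 3 = 5 * (d : ℝ) ^ 2 * (M : ℝ) ^ 3 := by
    rw [hMR]; ring
  rw [hMM, hCM]
  have h1 : (M : ℝ) ^ 2 ≤ (M : ℝ) ^ 3 := by nlinarith [sq_nonneg (M : ℝ)]
  have h2 : (M : ℝ) * (M + 1) * (2 * M + 1) / 6 ≤ (M : ℝ) ^ 3 := by
    nlinarith [sq_nonneg (M : ℝ), mul_nonneg (sub_nonneg.mpr hM1) (sq_nonneg (M : ℝ))]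
  have h3 : (6 * (d : ℝ) ^ 2 - 9 * d / 2) * (M : ℝ) ^ 2 / 12 ≤ (d : ℝ) ^ 2 / 2 * (M : ℝ) ^ 3 := by
    have : (6 * (d : ℝ) ^ 2 - 9 * d / 2) * (M : ℝ) ^ 2 ≤ 6 * (d : ℝ) ^ 2 * (M : ℝ) ^ 2 := by
      apply mul_le_mul_of_nonneg_right _ (sq_nonneg _)
      linarith
    have h4 : 6 * (d : ℝ) ^ 2 * (M : ℝ) ^ 2 ≤ 6 * (d : ℝ) ^ 2 * (M : ℝ) ^ 3 :=
      mul_le_mul_of_nonneg_left h1 (by positivity)
    linarith
  have h5 : 9 * (d : ℝ) ^ 2 / 2 * ((M : ℝ) * (M + 1) * (2 * M + 1) / 6) ≤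
      9 * (d : ℝ) ^ 2 / 2 * (M : ℝ) ^ 3 := mul_le_mul_of_nonneg_left h2 (by positivity)
  have e4 : (4 * (d : ℝ) ^ 2 - 3 * d) / 648 * (81 * (M : ℝ) ^ 4) =
      (6 * (d : ℝ) ^ 2 - 9 * d / 2) * (M : ℝ) ^ 4 / 12 := by ring
  rw [e4]
  have e5 : (6 * (d : ℝ) ^ 2 - 9 * d / 2) * ((M : ℝ) ^ 2 * ((M : ℝ) ^ 2 - 1) / 12) =
      (6 * (d : ℝ) ^ 2 - 9 * d / 2) * (M : ℝ) ^ 4 / 12 -
      (6 * (d : ℝ) ^ 2 - 9 * d / 2) * (M : ℝ) ^ 2 / 12 := by ring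
  rw [e5]
  linarith

end Pool.Agent.H60.ND
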